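import Mathlib

set_option autoImplicit false

namespace Pool.Agent.H.MP_94066b_nt

lemma mem_of (q m L x : ℕ) (r t w : ℤ) (e : m * r - L = q * t) (h1 : x * t ≤ w * m)
    (h2 : w * q ≤ x * r) : L * x ∈ AddSubmonoid.closure ({q, m} : Set ℕ) := by
  rw [AddSubmonoid.mem_closure_pair]
  obtain ⟨α, hα⟩ := Int.eq_ofNat_of_zero_le (sub_nonneg.mpr h1)
  obtain ⟨β, hβ⟩ := Int.eq_ofNat_of_zero_le (sub_nonneg.mpr h2)
  refine ⟨α, β, ?_⟩
  zify
  simp only [smul_eq_mul]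
  push_cast
  linear_combination -q * hα - m * hβ + x * e

lemma of_mem (q m L x : ℕ) (r t : ℤ) (hq : 0 < q) (hc : Nat.Coprime q m) (e : m * r - L = q * t)
    (h : L * x ∈ AddSubmonoid.closure ({q, m} : Set ℕ)) : ∃ w : ℤ, x * t ≤ w * m ∧ w * q ≤ x * r := by
  obtain ⟨α, β, h⟩ := (AddSubmonoid.mem_closure_pair _ _ _).mp h
  have h1 : (α : ℤ) * q + β * m = L * x := by exact_mod_cast h
  have h2 : (q : ℤ) ∣ (x * r - β) * m := ⟨x * t + α, by linear_combination x * e - h1⟩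
  obtain ⟨w, hw⟩ := (Nat.isCoprime_iff_coprime.mpr hc).dvd_of_dvd_mul_right h2
  have h3 : (q : ℤ) * (w * m - x * t - α) = 0 := by linear_combination x * e - h1 - m * hw
  have h4 := (mul_eq_zero.mp h3).resolve_left (by positivity)
  exact ⟨w, by omega, by nlinarith⟩

lemma one (h j q L : ℕ) (hh : 0 < h) (hq : q.Prime) (hL : L.Prime) (h1 : 2 * h ^ 2 + 3 * h ≤ q)
    (h2 : 2 * q ^ 2 ≤ L) : ∃ m, 0 < m ∧ Nat.Coprime q m ∧ Nat.Coprime L m ∧
    L * h ∉ AddSubmonoid.closure ({q, m} : Set ℕ) ∧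
    ∀ x, (2 * h ≤ x ∨ ∃ k, j * x < k * h ∧ k * h < (j + 1) * x) →
      L * x ∈ AddSubmonoid.closure ({q, m} : Set ℕ) := by
  have := Fact.mk hq
  have hq0 := hq.pos
  obtain ⟨r, ρ, hρ, hr⟩ : ∃ r ρ, ρ < h ∧ h * r + ρ + 1 = (j + 1) * q := by
    have : 0 < (j + 1) * q := by positivity
    exact ⟨((j + 1) * q - 1) / h, _, Nat.mod_lt _ hh, by rw [Nat.div_add_mod]; omega⟩
  obtain ⟨δ, hδ⟩ : ∃ δ, δ + ρ + 1 = q := ⟨q - ρ - 1, by omega⟩
  have hr0 : (r : ZMod q) ≠ 0 := by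
    rw [Ne, ZMod.natCast_eq_zero_iff]
    intro hd
    have h3 : q ∣ ρ + 1 := (Nat.dvd_add_right (hd.mul_left h)).mp
      (by rw [← add_assoc, hr]; exact dvd_mul_left _ _)
    have := Nat.le_of_dvd (by omega) h3
    omega
  have hqL : q < L := by nlinarith
  have hL0 : (L : ZMod q) ≠ 0 := by
    rw [Ne, ZMod.natCast_eq_zero_iff, Nat.prime_dvd_prime_iff_eq hq hL]
    omega
  obtain ⟨m, hm1, hm2, hm3⟩ : ∃ m, h * L < m * δ ∧ m * δ ≤ h * L + q * δ ∧
      ((m * r : ℕ) : ZMod q) = L := by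
    have h3 := Nat.div_add_mod (h * L) δ
    have h4 := Nat.mod_lt (h * L) (show 0 < δ by omega)
    have h5 := ZMod.val_lt ((L : ZMod q) / (r : ZMod q) - ((h * L / δ + 1 : ℕ) : ZMod q))
    refine ⟨h * L / δ + 1 + ((L : ZMod q) / (r : ZMod q) - ((h * L / δ + 1 : ℕ) : ZMod q)).val, by nlinarith,
      by linarith [Nat.mul_le_mul_right δ (Nat.add_one_le_of_lt h5), Nat.zero_le (h * L % δ)], ?_⟩
    rw [Nat.cast_mul, Nat.cast_add, ZMod.natCast_zmod_val]
    field_simp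
    ring
  obtain ⟨t, ht⟩ := ((ZMod.natCast_eq_natCast_iff _ _ _).mp hm3).symm.dvd
  push_cast at ht
  have hδ1 : 2 * q ≤ 3 * δ := by omega
  have h5 : m * q ≤ 2 * h * L := by
    have : 0 < δ := by omega
    refine Nat.le_of_mul_le_mul_right ?_ this
    have a1 : m * δ * q ≤ (h * L + q * δ) * q := Nat.mul_le_mul_right _ hm2
    have a2 : h * L * (2 * q) ≤ h * L * (3 * δ) := Nat.mul_le_mul_left _ hδ1
    have a3 : 2 * q ^ 2 * δ ≤ h * L * δ := Nat.mul_le_mul_right _ (by nlinarith)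
    nlinarith
  have h6 : 2 * h * q ≤ m := by
    refine Nat.le_of_mul_le_mul_right ?_ hq0
    have a1 : m * δ ≤ m * q := Nat.mul_le_mul_left _ (by omega)
    have a2 : h * (2 * q ^ 2) ≤ h * L := Nat.mul_le_mul_left _ h2
    nlinarith
  have hm0 : 0 < m := by nlinarith
  have hmL : m < L := by
    refine Nat.lt_of_mul_lt_mul_right (a := q) (h5.trans_lt ?_)
    have := hL.pos
    nlinarith
  have hc : Nat.Coprime q m := (Nat.Prime.coprime_iff_not_dvd hq).mpr fun hd => hL0 (by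
    rw [← hm3, ZMod.natCast_eq_zero_iff]
    exact hd.mul_right _)
  have hq1 : (0 : ℤ) < q := by exact_mod_cast hq0
  have hh1 : (0 : ℤ) < h := by exact_mod_cast hh
  have hm4 : (0 : ℤ) < m := by exact_mod_cast hm0
  zify at hr hδ hm1 hm2 h5 h6 h1 hρ
  have e1 : (q : ℤ) * (t * h - j * m) = m * δ - h * L := by
    linear_combination -h * ht + m * hr - m * hδ
  refine ⟨m, hm0, hc, (Nat.coprime_of_lt_prime hm0.ne' hmL hL), fun hmem => ?_, fun x hx => ?_⟩
  · obtain ⟨w, h3, h4⟩ := of_mem q m L h r t hq0 hc ht hmem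
    have a1 : 0 < t * h - j * m := (mul_pos_iff_of_pos_left hq1).mp (by linarith)
    have a2 : (j : ℤ) < w := lt_of_mul_lt_mul_right (a := (m : ℤ)) (by linarith) hm4.le
    have a3 : w < j + 1 := lt_of_mul_lt_mul_right (a := (q : ℤ)) (by linarith) hq1.le
    omega
  rcases le_or_gt (2 * h) x with hx1 | hx1
  · have a1 := Int.emod_add_mul_ediv ((x : ℤ) * r) q
    have a2 := Int.emod_nonneg ((x : ℤ) * r) hq1.ne'
    have a3 := Int.emod_lt_of_pos ((x : ℤ) * r) hq1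
    refine mem_of q m L x r t (x * r / q) ht ?_ (by linarith)
    refine le_of_mul_le_mul_left ?_ hq1
    zify at hx1
    have a4 : (2 * h : ℤ) * L ≤ x * L := by gcongr
    have a5 : (x : ℤ) * r % q * m ≤ q * m := by gcongr
    nlinarith
  · obtain ⟨k, h3, h4⟩ := hx.resolve_left (by omega)
    zify at h3 h4 hx1
    have hx0 : (0 : ℤ) ≤ x := by positivity
    refine mem_of q m L x r t k ht ?_ ?_
    · have a1 : t * h - j * m ≤ δ := le_of_mul_le_mul_left (by linarith) hq1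
      have a2 : x * (t * h - j * m) ≤ x * δ := by gcongr
      have a3 : (x : ℤ) * δ ≤ 2 * h * q := by
        have : (δ : ℤ) ≤ q := by omega
        gcongr
      have a4 : ((j : ℤ) * x + 1) * m ≤ k * h * m := by gcongr; omega
      refine le_of_mul_le_mul_left ?_ hh1
      nlinarith
    · have a1 : ((k : ℤ) * h + 1) * q ≤ (j + 1) * x * q := by gcongr; omega
      have a2 : (x : ℤ) * (ρ + 1) ≤ 2 * h * h := by gcongr; omega
      refine le_of_mul_le_mul_left ?_ hh1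
      nlinarith

lemma frac (a b c h x : ℕ) (hb : 0 < b) (hh : 0 < h) (h1 : h < a * h % b + c)
    (h2 : a * x % b + c ≤ x) (hx : 0 < x) :
    ∃ k, a * h / b * x < k * h ∧ k * h < (a * h / b + 1) * x := by
  rcases lt_or_ge h x with h3 | h3
  · have := Nat.div_add_mod (a * h / b * x) h
    have := Nat.mod_lt (a * h / b * x) hh
    generalize a * h / b * x % h = u at *
    exact ⟨a * h / b * x / h + 1, by linarith, by linarith [Nat.zero_le u]⟩
  · have e1 := Nat.div_add_mod (a * h) b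
    have e2 := Nat.div_add_mod (a * x) b
    have e3 := Nat.mod_lt (a * h) hb
    generalize a * h / b = j at *
    generalize a * x / b = k at *
    generalize a * h % b = ρ at *
    generalize a * x % b = σ at *
    refine ⟨k, Nat.lt_of_mul_lt_mul_left (a := b) ?_, Nat.lt_of_mul_lt_mul_left (a := b) ?_⟩
    · have a1 : (σ + c) * h ≤ x * h := Nat.mul_le_mul_right _ h2
      have a2 : h * x < (ρ + c) * x := Nat.mul_lt_mul_of_pos_right h1 hx
      have a3 : c * x ≤ c * h := Nat.mul_le_mul_left _ h3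
      zify at *
      nlinarith
    · have a1 : ρ * x < b * x := Nat.mul_lt_mul_of_pos_right e3 hx
      zify at *
      nlinarith

theorem main (a b c : ℕ) (hb : b ≠ 0) : ∃ (L n : ℕ) (q m : Fin n → ℕ), 0 < L ∧ 0 < n ∧
    (∀ i, 0 < q i ∧ 0 < m i ∧ Nat.Coprime (q i) (m i) ∧ Nat.Coprime L (m i) ∧ Nat.Coprime L (q i)) ∧
    ∀ x, (x = 0 ∨ a * x % b + c ≤ x) ↔
      ∀ i, L * x ∈ AddSubmonoid.closure ({q i, m i} : Set ℕ) := by
  obtain ⟨q, hq1, hq⟩ := Nat.exists_infinite_primes (2 * (b + c) ^ 2 + 3 * (b + c))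
  obtain ⟨L, hL1, hL⟩ := Nat.exists_infinite_primes (2 * q ^ 2)
  have hb0 := Nat.pos_of_ne_zero hb
  have key : ∀ h : Fin (b + c), ∃ q m : ℕ,
      (0 < q ∧ 0 < m ∧ Nat.Coprime q m ∧ Nat.Coprime L m ∧ Nat.Coprime L q) ∧
      (L * h ∈ AddSubmonoid.closure ({q, m} : Set ℕ) → (h : ℕ) = 0 ∨ a * h % b + c ≤ h) ∧
      ∀ x, (x = 0 ∨ a * x % b + c ≤ x) → L * x ∈ AddSubmonoid.closure ({q, m} : Set ℕ) := by
    rintro ⟨h, hh⟩
    by_cases h1 : h = 0 ∨ a * h % b + c ≤ h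
    · exact ⟨1, 1, by simp, fun _ => h1, fun x _ =>
        (AddSubmonoid.mem_closure_pair _ _ _).mpr ⟨L * x, 0, by simp⟩⟩
    · push Not at h1
      have h2 := Nat.pos_of_ne_zero h1.1
      obtain ⟨m, h3, h4, h5, h6, h7⟩ := one h (a * h / b) q L h2 hq hL (by nlinarith) hL1
      refine ⟨q, m, ⟨hq.pos, h3, h4, h5, (Nat.coprime_primes hL hq).mpr ?_⟩,
        fun h8 => absurd h8 h6, fun x hx => ?_⟩
      · have := hq.pos
        nlinarith
      · rcases Nat.eq_zero_or_pos x with rfl | h0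
        · exact zero_mem _
        · exact h7 x (.inr (frac a b c h x hb0 h2 h1.2 (hx.resolve_left h0.ne') h0))
  choose q m h1 h2 h3 using key
  refine ⟨L, b + c, q, m, hL.pos, by omega, h1, fun x => ⟨fun hx i => h3 i x hx, fun hx => ?_⟩⟩
  rcases lt_or_ge x (b + c) with h | h
  · exact h2 ⟨x, h⟩ (hx _)
  · have := Nat.mod_lt (a * x) hb0
    omega

end Pool.Agent.H.MP_94066b_nt
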